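import Pool.Graph.R_pool_sql_team_seeded_707910d6.T2H54.CL.Asm5
import Pool.Graph.R_pool_sql_team_seeded_707910d6.T2H54.CL.K1
import Pool.Graph.R_pool_sql_team_seeded_707910d6.T2H54.CL.OPB
import Pool.Graph.R_pool_sql_team_seeded_707910d6.T2H54.CL.VBQ
import Pool.Graph.R_pool_sql_team_seeded_707910d6.T2H54.CL.QDQ
import Pool.Graph.R_pool_sql_team_seeded_707910d6.T2H54.CL.TNQ
import Pool.Graph.R_pool_sql_team_seeded_707910d6.T2H54.CL.SSRQ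
import Pool.Graph.R_pool_sql_team_seeded_707910d6.T2H54.CL.LCMQ
import Pool.Graph.R_pool_sql_team_seeded_707910d6.T2H54.CL.A4RQ
import Pool.Graph.R_pool_sql_team_seeded_707910d6.T2H54.CL.CTRQ
import Pool.Graph.R_pool_sql_team_seeded_707910d6.T2H54.CL.GLRQ
import Pool.Graph.R_pool_sql_team_seeded_707910d6.T2H54.CL.MVK
import Pool.Graph.R_pool_sql_team_seeded_707910d6.T2H54.CL.ZMRQ
import Pool.Graph.R_pool_sql_team_seeded_707910d6.T2H54.CL.NSQ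
import Pool.Graph.R_pool_sql_team_seeded_707910d6.T2H54.CL.SWQ
import Pool.Graph.R_pool_sql_team_seeded_707910d6.T2H54.CL.XD
import Pool.Graph.R_pool_sql_team_seeded_707910d6.T2H54.CL.SPD
import Pool.Graph.R_pool_sql_team_seeded_707910d6.T2H54.TP.Q4
import Pool.Graph.R_pool_sql_team_seeded_707910d6.T2H54.TP.WD
import Pool.Graph.R_pool_sql_team_seeded_707910d6.T2H54.TP.AFA
import Pool.Graph.R_pool_sql_team_seeded_707910d6.T2H54.TP.AFB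
import Pool.Graph.R_pool_sql_team_seeded_707910d6.T2H54.TP.AFD
import Pool.Graph.R_pool_sql_team_seeded_707910d6.T2H54.TP.CHD
import Pool.Graph.R_pool_sql_team_seeded_707910d6.T2H54.TP.DG
import Pool.Graph.R_pool_sql_team_seeded_707910d6.T2H54.TP.BV
import Pool.Graph.R_pool_sql_team_seeded_707910d6.T2H54.TP.SPC
import Pool.Graph.R_pool_sql_team_seeded_707910d6.T2H54.TP.TSM
import Pool.Graph.R_pool_sql_team_seeded_707910d6.T2H54.TP.TAB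
import Pool.Graph.R_seed8.TH811.GS.One
import Pool.Graph.R_seed8.TH928.GS.MV

set_option autoImplicit false

/-!
Project CL (library run 707910d6, T2H54/CL): all packages put together.
-/

namespace Pool.Agent.H681.CL

open MeasureTheory Set
open Pool.Agent.T2H54.CL Pool.Agent.T2H54.TP Pool.Agent.TH612.GS Pool.Agent.TH612.CF

theorem hAFD : S_AFD := t_AFD (t_AFA t_CHD) (t_AFB t_WD)

theorem hTAB : S_TAB := t_TAB (t_TSM t_WD hAFD t_SPC (t_DG t_WD) (t_BV t_WD))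

/-- The product measure on the cube is the restriction of the Lebesgue measure. -/
theorem mP_eq (ι : Type) [Fintype ι] (T : ℝ) :
    mP ι T = volume.restrict (Set.univ.pi fun _ : ι => Icc (0:ℝ) T) := by
  rw [mP, ← Measure.restrict_pi_pi]
  rfl

theorem mainC (n : ℕ) (hn : 1 ≤ n) :
    ∃ δ : ℝ, 0 < δ ∧ ∀ a b : Fin (n + 1) → ℝ, (∀ j, a j ≠ b j) → ∃ T₀ : ℝ, ∀ T : ℝ,
      T₀ ≤ T → mP (Fin n) T (BadQ a b T (T * T ^ (-δ))) ≤ ENNReal.ofReal (T ^ n * T ^ (-δ)) :=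
  mainQ (t_K1 t_WD hAFD (t_DG t_WD) (t_BV t_WD) t_SPD) t_OPB (t_VBQ t_Q4) t_QDQ
    (t_TNQ hTAB t_XD) (t_SSRQ t_LCMQ) (t_A4RQ t_CTRQ (t_GLRQ t_MVK)) t_ZMRQ t_NSQ t_SWQ t_Q4
    (Pool.Agent.TH811.GS.t_ONE Pool.Agent.TH928.GS.t_MV) n hn

theorem mainV (n : ℕ) (hn : 1 ≤ n) :
    ∃ δ : ℝ, 0 < δ ∧ ∀ a b : Fin (n + 1) → ℝ, (∀ j, a j ≠ b j) → ∃ T₀ : ℝ, ∀ T : ℝ, T₀ ≤ T →
      volume {h : Fin n → ℝ | (∀ i, 0 ≤ h i ∧ h i ≤ T) ∧ ∃ S : ℝ, 0 ≤ S ∧ S ≤ T ∧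
        T * T ^ (-δ) < ‖∫ t in (0:ℝ)..S, (Zg (gk a b h) t - ((Nat.factorial (n + 1) : ℂ) ^ 2)⁻¹ *
          Qs t (fun i => (gk a b h i : ℂ)))‖} ≤ ENNReal.ofReal (T ^ n * T ^ (-δ)) := by
  obtain ⟨δ, hδ, h⟩ := mainC n hn
  refine ⟨δ, hδ, fun a b hab => ?_⟩
  obtain ⟨T₀, hT₀⟩ := h a b hab
  refine ⟨T₀, fun T hT => ?_⟩
  have h1 := hT₀ T hT
  rw [mP_eq] at h1
  have e : {h : Fin n → ℝ | (∀ i, 0 ≤ h i ∧ h i ≤ T) ∧ ∃ S : ℝ, 0 ≤ S ∧ S ≤ T ∧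
        T * T ^ (-δ) < ‖∫ t in (0:ℝ)..S, (Zg (gk a b h) t - ((Nat.factorial (n + 1) : ℂ) ^ 2)⁻¹ *
          Qs t (fun i => (gk a b h i : ℂ)))‖} = BadQ a b T (T * T ^ (-δ)) ∩
          (Set.univ.pi fun _ : Fin n => Icc (0:ℝ) T) := by
    ext h
    simp only [BadQ, DD, Set.mem_ofPred_eq, Set.mem_inter_iff, Set.mem_pi, Set.mem_univ, true_imp_iff,
      Set.mem_Icc]
    tauto
  rw [e]
  rw [Measure.restrict_apply' (MeasurableSet.univ_pi fun _ => measurableSet_Icc)] at h1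
  exact h1

end Pool.Agent.H681.CL
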